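import Pool.Agent.H17.SQA.Stmts

/-!
# SQA, row MAT: spaces of matrices of small dimension
-/

set_option autoImplicit false

namespace Pool.SQA

open Finset

private theorem mat_gen {ι E W : Type*} [AddCommGroup E] [Module ℂ E] [FiniteDimensional ℂ E]
    [AddCommGroup W] [Module ℂ W] [Nonempty ι] (T : ι → (E →ₗ[ℂ] W)) :
    ∀ (b : ℕ) (X : Submodule ℂ E), Module.finrank ℂ X ≤ b →
      (∀ M ∈ X, M ≠ 0 → ∃ v, T v M ≠ 0) →
      ∃ v : Fin b → ι, ∀ M ∈ X, (∀ j, T (v j) M = 0) → M = 0 := by
  intro b
  induction b with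
  | zero =>
    intro X hX hT
    have h0 : X = ⊥ := Submodule.finrank_eq_zero.1 (Nat.le_zero.1 hX)
    refine ⟨fun i => i.elim0, fun M hM _ => ?_⟩
    rw [h0] at hM
    exact (Submodule.mem_bot ℂ).1 hM
  | succ b ih =>
    intro X hX hT
    by_cases h0 : X = ⊥
    · refine ⟨fun _ => Classical.arbitrary ι, fun M hM _ => ?_⟩
      rw [h0] at hM
      exact (Submodule.mem_bot ℂ).1 hM
    · obtain ⟨M0, hM0, hne⟩ := Submodule.exists_mem_ne_zero_of_ne_bot h0
      obtain ⟨v0, hv0⟩ := hT M0 hM0 hne
      have hlt : X ⊓ LinearMap.ker (T v0) < X := by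
        refine lt_of_le_of_ne inf_le_left fun h => hv0 ?_
        have : M0 ∈ X ⊓ LinearMap.ker (T v0) := by rw [h]; exact hM0
        exact LinearMap.mem_ker.1 this.2
      have hf := Submodule.finrank_lt_finrank_of_lt hlt
      obtain ⟨v, hv⟩ := ih (X ⊓ LinearMap.ker (T v0)) (by omega)
        (fun M hM hM0 => hT M hM.1 hM0)
      refine ⟨Fin.cons v0 v, fun M hM hj => ?_⟩
      have h1 : T v0 M = 0 := by simpa using hj 0
      refine hv M ⟨hM, LinearMap.mem_ker.2 h1⟩ fun j => ?_
      simpa using hj j.succ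

private def rowL {α β : Type} [Fintype α] (φ : α → ℂ) : (α → β → ℂ) →ₗ[ℂ] (β → ℂ) where
  toFun M := fun z => ∑ x, φ x * M x z
  map_add' M N := by
    funext z
    simp [mul_add, Finset.sum_add_distrib]
  map_smul' c M := by
    funext z
    simp only [Pi.smul_apply, smul_eq_mul, RingHom.id_apply, Finset.mul_sum]
    exact Finset.sum_congr rfl fun x _ => by ring

private theorem rowL_apply {α β : Type} [Fintype α] (φ : α → ℂ) (M : α → β → ℂ) (z : β) :
    rowL φ M z = ∑ x, φ x * M x z := rfl

private def colL {α β : Type} [Fintype β] (v : β → ℂ) : (α → β → ℂ) →ₗ[ℂ] (α → ℂ) where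
  toFun M := fun x => ∑ z, M x z * v z
  map_add' M N := by
    funext z
    simp [add_mul, Finset.sum_add_distrib]
  map_smul' c M := by
    funext z
    simp only [Pi.smul_apply, smul_eq_mul, RingHom.id_apply, Finset.mul_sum]
    exact Finset.sum_congr rfl fun x _ => by ring

private theorem colL_apply {α β : Type} [Fintype β] (v : β → ℂ) (M : α → β → ℂ) (x : α) :
    colL v M x = ∑ z, M x z * v z := rfl

private def dotL {β : Type} [Fintype β] (v : β → ℂ) : (β → ℂ) →ₗ[ℂ] ℂ where
  toFun w := ∑ z, w z * v z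
  map_add' M N := by
    simp [add_mul, Finset.sum_add_distrib]
  map_smul' c M := by
    simp only [Pi.smul_apply, smul_eq_mul, RingHom.id_apply, Finset.mul_sum]
    exact Finset.sum_congr rfl fun x _ => by ring

private theorem dotL_apply {β : Type} [Fintype β] (v w : β → ℂ) :
    dotL v w = ∑ z, w z * v z := rfl

/-- the rank is maximal at `φ0`: the kernel of `φ0` is mapped by `φ` to the image of `φ0` -/
private theorem mat_max {α β : Type} [Fintype α] [Fintype β] (X : Submodule ℂ (α → β → ℂ))
    (φ0 : α → ℂ) (hmax : ∀ φ : α → ℂ, Module.finrank ℂ (X.map (rowL (β := β) φ)) ≤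
      Module.finrank ℂ (X.map (rowL (β := β) φ0)))
    (φ : α → ℂ) (M : α → β → ℂ) (hM : M ∈ X) (h0 : rowL φ0 M = 0) :
    rowL φ M ∈ X.map (rowL (β := β) φ0) := by
  classical
  by_contra hcon
  set V := X.map (rowL (β := β) φ0) with hV
  set r := Module.finrank ℂ V with hr
  let bs : Module.Basis (Fin r) ℂ V := Module.finBasis ℂ V
  have hch : ∀ i : Fin r, ∃ N ∈ X, rowL φ0 N = (bs i : β → ℂ) := by
    intro i
    exact Submodule.mem_map.1 (bs i).2
  choose N hN hNb using hch
  let w : ℂ → Fin (r + 1) → (β → ℂ) := fun t =>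
    Fin.cons (rowL φ M) (fun i => rowL φ0 (N i) + t • rowL φ (N i))
  have hw0 : LinearIndependent ℂ (w 0) := by
    have e : w 0 = Fin.cons (rowL φ M) (fun i => ((bs i : V) : β → ℂ)) := by
      simp only [w]
      congr 1
      funext i
      rw [zero_smul, add_zero, hNb]
    rw [e, linearIndependent_finCons]
    have hbs : LinearIndependent ℂ (fun i => ((bs i : V) : β → ℂ)) :=
      bs.linearIndependent.map' V.subtype (Submodule.ker_subtype V)
    refine ⟨hbs, fun hmem => hcon ?_⟩
    refine Submodule.span_le.2 ?_ hmem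
    rintro _ ⟨i, rfl⟩
    exact (bs i).2
  have hcont : Continuous w := by
    refine continuous_pi fun i => ?_
    refine Fin.cases ?_ (fun i => ?_) i
    · simp only [w, Fin.cons_zero]
      exact continuous_const
    · simp only [w, Fin.cons_succ]
      exact continuous_const.add (continuous_id.smul continuous_const)
  have hopen : IsOpen {t : ℂ | LinearIndependent ℂ (w t)} :=
    isOpen_setOfPred_linearIndependent.preimage hcont
  have hev : ∀ᶠ t in nhdsWithin (0 : ℂ) {0}ᶜ, LinearIndependent ℂ (w t) ∧ t ∈ ({0}ᶜ : Set ℂ) :=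
    (Filter.Eventually.filter_mono nhdsWithin_le_nhds (hopen.mem_nhds hw0)).and
      self_mem_nhdsWithin
  obtain ⟨t, hli, ht⟩ := hev.exists
  have ht0 : t ≠ 0 := ht
  have hlin : ∀ N : α → β → ℂ, rowL (φ0 + t • φ) N = rowL φ0 N + t • rowL φ N := by
    intro N
    funext z
    simp only [rowL_apply, Pi.add_apply, Pi.smul_apply, smul_eq_mul, add_mul,
      Finset.sum_add_distrib, Finset.mul_sum]
    congr 1
    exact Finset.sum_congr rfl fun x _ => by ring
  have hmem : ∀ i, w t i ∈ X.map (rowL (β := β) (φ0 + t • φ)) := by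
    intro i
    refine Fin.cases ?_ (fun i => ?_) i
    · simp only [w, Fin.cons_zero]
      refine ⟨t⁻¹ • M, X.smul_mem _ hM, ?_⟩
      rw [map_smul, hlin, h0, zero_add, smul_smul, inv_mul_cancel₀ ht0, one_smul]
    · simp only [w, Fin.cons_succ]
      exact ⟨N i, hN i, hlin _⟩
  have h1 : Module.finrank ℂ (Submodule.span ℂ (Set.range (w t))) = r + 1 := by
    rw [finrank_span_eq_card hli, Fintype.card_fin]
  have h2 : Submodule.span ℂ (Set.range (w t)) ≤ X.map (rowL (β := β) (φ0 + t • φ)) := by
    refine Submodule.span_le.2 ?_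
    rintro _ ⟨i, rfl⟩
    exact hmem i
  have h3 := Submodule.finrank_mono h2
  have h4 := hmax (φ0 + t • φ)
  omega

theorem t_mat : MATStmt := by
  classical
  intro α β _ _ X a b h
  induction a generalizing X with
  | zero =>
    obtain ⟨v, hv⟩ := mat_gen (ι := β → ℂ) (fun v => colL (α := α) v) b X (by omega) (by
      intro M _ hne
      obtain ⟨x, hx⟩ := Function.ne_iff.1 hne
      obtain ⟨z, hz⟩ := Function.ne_iff.1 hx
      refine ⟨Pi.single z 1, fun h0 => hz ?_⟩
      have := congrFun h0 x
      rw [colL_apply] at this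
      simpa [Pi.single_apply] using this)
    refine ⟨fun i => i.elim0, v, fun M hM _ h2 => hv M hM fun j => ?_⟩
    funext x
    exact h2 j x
  | succ a ih =>
    have hb : ∀ φ : α → ℂ, Module.finrank ℂ (X.map (rowL (β := β) φ)) ≤ Module.finrank ℂ X :=
      fun φ => Submodule.finrank_map_le _ _
    obtain ⟨φ0, hφ0⟩ : ∃ φ0 : α → ℂ, ∀ φ : α → ℂ,
        Module.finrank ℂ (X.map (rowL (β := β) φ)) ≤
          Module.finrank ℂ (X.map (rowL (β := β) φ0)) := by
      let f : (α → ℂ) → ℕ := fun φ => Module.finrank ℂ (X.map (rowL (β := β) φ))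
      have hfin : (Set.range f).Finite :=
        (Set.finite_Iic (Module.finrank ℂ X)).subset (by rintro _ ⟨φ, rfl⟩; exact hb φ)
      obtain ⟨m, ⟨φ0, rfl⟩, hm⟩ := Set.exists_max_image (Set.range f) id hfin
        (Set.range_nonempty f)
      exact ⟨φ0, fun φ => hm _ ⟨φ, rfl⟩⟩
    by_cases hr : b + 1 ≤ Module.finrank ℂ (X.map (rowL (β := β) φ0))
    · set T := (rowL (β := β) φ0).domRestrict X with hT
      have h1 := LinearMap.finrank_range_add_finrank_ker T
      have h2 : LinearMap.range T = X.map (rowL (β := β) φ0) := LinearMap.range_domRestrict _ _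
      rw [h2] at h1
      obtain ⟨u, v, huv⟩ := ih ((LinearMap.ker T).map X.subtype) (by
        rw [Submodule.finrank_map_subtype_eq]
        have : (a + 1 + 1) * (b + 1) = (a + 1) * (b + 1) + (b + 1) := by ring
        omega)
      refine ⟨Fin.cons φ0 u, v, fun M hM h3 h4 => ?_⟩
      have h5 : rowL φ0 M = 0 := by
        funext z
        have := h3 0 z
        rw [Fin.cons_zero] at this
        exact this
      refine huv M ⟨⟨M, hM⟩, LinearMap.mem_ker.2 h5, rfl⟩ (fun i z => ?_) h4
      have := h3 i.succ z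
      rw [Fin.cons_succ] at this
      exact this
    · rw [not_le] at hr
      obtain ⟨v, hv⟩ := mat_gen (ι := β → ℂ) (fun v => dotL v) b
        (X.map (rowL (β := β) φ0)) (by omega) (by
          intro w _ hne
          obtain ⟨z, hz⟩ := Function.ne_iff.1 hne
          refine ⟨Pi.single z 1, fun h0 => hz ?_⟩
          rw [dotL_apply] at h0
          simpa [Pi.single_apply] using h0)
      refine ⟨fun _ => 0, v, fun M hM _ h4 => ?_⟩
      have h5 : rowL φ0 M = 0 := by
        refine hv _ ⟨M, hM, rfl⟩ fun j => ?_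
        rw [dotL_apply]
        simp only [rowL_apply, Finset.sum_mul]
        rw [Finset.sum_comm]
        refine Finset.sum_eq_zero fun x _ => ?_
        have := h4 j x
        simp only [mul_assoc, ← Finset.mul_sum]
        rw [this, mul_zero]
      funext x
      have h6 := mat_max X φ0 hφ0 (Pi.single x 1) M hM h5
      have h7 : rowL (Pi.single x 1) M = M x := by
        funext z
        rw [rowL_apply]
        simp [Pi.single_apply]
      rw [h7] at h6
      exact hv _ h6 fun j => h4 j x

end Pool.SQA
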